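import Mathlib

/-!
# Beyond the density hypothesis: the globally generic spectrum of the split simple groups: the statement

`P` is an irreducible reduced crystallographic root system with base `b`, `K` a number field. The definitions are made in general in sections 1 (a group `G` with subgroups `Γ`, `U`), 2 (groups of matrices), 3 (the local
group `G(F)`, `F = ℝ` or `ℂ`: maximal compact subgroup, Iwasawa projection, spherical functions; the embedding of the local group at an archimedean place) and 4 (levels, Hecke elements, the general form `Est` of the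
statement); section 5 has the root system and section 6 (`BeyondDensity`) the statement for the split group `G(K)` of type `P`. The matrices are then indexed by `b.support ⊕ ι` (`ι` the set of roots): this is the adjoint
representation of Geck's construction of the simple Lie algebra of `P` (`RootPairing.GeckConstruction`), with the Chevalley generators `e_i`, `f_i`; `G(K)` is generated by the `exp(t e_i)`, `exp(t f_i)`, `t ∈ K`: it is
the image in the adjoint group of the `K`-points of the simply connected split group. The real group `G` is the closure of `G(K)` in `GL(K ⊗ ℝ)`.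
-/

namespace Pool.Agent.Lib.L8.PX

open MeasureTheory Matrix NumberField IsDedekindDomain

noncomputable section

set_option linter.unusedSectionVars false

/-! ## 1. Groups -/

section groups

variable {G J : Type} [Group G] [Fintype J]

/-- **Hecke operators**: `F` is an eigenfunction with the eigenvalue `t` of the operator of the double coset `Γ h Γ`: `∑ F (w x) = t F (x)`, the sum over `w ∈ Γ \ Γ h Γ`. -/
def IsT (Γ : Subgroup G) (h : G) (F : G → ℂ) (t : ℂ) : Prop :=
  ∃ S : Finset G, (∀ w ∈ S, ∃ γ ∈ Γ, ∃ γ' ∈ Γ, w = γ * h * γ') ∧ (∀ w, (∃ γ ∈ Γ, ∃ γ' ∈ Γ, w = γ * h * γ') → ∃! w', w' ∈ S ∧ w * w'⁻¹ ∈ Γ) ∧ ∀ x, ∑ w ∈ S, F (w * x) = t * F x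

variable [MeasurableSpace G]

/-- **The Whittaker coefficient** of `F` at `x`: the mean value of `F (u x) ψ(u)⁻¹` over `D`, a fundamental domain for a discrete subgroup of `U`. -/
def Wh (U : Subgroup G) [MeasurableSpace U] (ν : Measure U) (D : Set U) (ψ : U → ℂ) (F : G → ℂ) (x : G) : ℂ := ⨍ u in D, F (u.1 * x) * star (ψ u) ∂ν

variable [TopologicalSpace G]

/-- Continuous functions in `L²(Γ \ G)` (`D` a fundamental domain) which are eigenfunctions of the convolution operator of `φ`, `∫ F (x y) φ (y) dy = c F (x)`, and of the Hecke operator of `Γ h Γ` (eigenvalue `t`). -/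
structure Aut (Γ : Subgroup G) (μ : Measure G) (D : Set G) (h : G) (φ F : G → ℂ) (c t : ℂ) : Prop where
  cont : Continuous F
  inv : ∀ γ ∈ Γ, ∀ x, F (γ * x) = F x
  l2 : MemLp F 2 (μ.restrict D)
  eig : ∀ x, ∫ y, F (x * y) * φ y ∂μ = c * F x
  hec : IsT Γ h F t

/-- **The inequality** at a point `x`: for orthonormal `F_1, …, F_m` in `L²(Γ \ G)` which are eigenfunctions of the convolution operator of `φ` (eigenvalues `c_l`) and of `Γ h Γ` (eigenvalues `t_l`), with parameters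
`z_kl ∈ ℂ^J`, `|z_kl| ≤ T`, for `k = 1, …, p` (`Sp_k z F`: `F` has the parameter `z`), and `y_kl ∈ O_k`: `∑_l exp(2 ∑_k R_k (Re z_kl(y_kl) - ε)) |c_l t_l W(F_l)|² ≤ X`, `W(F)` the Whittaker coefficient of `F` at `x`
(mean value over `(Γ ∩ U) \ U`). -/
def Bound (U Γ : Subgroup G) [MeasurableSpace U] (μ : Measure G) (ν : Measure U) (h : G) (φ : G → ℂ) (ψ : U → ℂ) (x : G) (p : ℕ) (Sp : Fin p → (J → ℂ) → (G → ℂ) → Prop) (O : Fin p → Set (J → ℝ)) (T ε : ℝ)
    (R : Fin p → ℝ) (X : ℝ) : Prop :=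
  ∀ (D : Set G) (D₀ : Set U), IsFundamentalDomain Γ D μ → IsFundamentalDomain (Γ.subgroupOf U) D₀ ν → ∀ (m : ℕ) (F : Fin m → G → ℂ) (c t : Fin m → ℂ) (z : Fin p → Fin m → J → ℂ) (y : Fin p → Fin m → J → ℝ),
    (∀ l, Aut Γ μ D h φ (F l) (c l) (t l)) → (∀ l k, ∫ x in D, star (F l x) * F k x ∂μ = if l = k then 1 else 0) → (∀ k l, Sp k (z k l) (F l)) → (∀ k l j, ‖z k l j‖ ≤ T) → (∀ k l, y k l ∈ O k) →
    ∑ l, Real.exp (2 * ∑ k, R k * (∑ j, (z k l j).re * y k l j - ε)) * ‖c l * t l * Wh U ν D₀ ψ (F l) x‖ ^ 2 ≤ X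

end groups

section closures

variable {A B : Type} [Group A] [Group B] [TopologicalSpace B] [IsTopologicalGroup B]

/-- The closure of the image of `H` under the homomorphism `τ`. -/
def Cl (τ : A →* B) (H : Subgroup A) : Subgroup B := (H.map τ).topologicalClosure

/-- The homomorphism `τ` from `H` to the closure of its image. -/
def em (τ : A →* B) (H : Subgroup A) : H →* Cl τ H where
  toFun g := ⟨τ g.1, Subgroup.le_topologicalClosure _ ⟨g.1, g.2, rfl⟩⟩
  map_one' := Subtype.ext (map_one τ)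
  map_mul' _ _ := Subtype.ext (map_mul τ _ _)

end closures

/-! ## 2. Groups of matrices -/

section matrices

variable {n J : Type} [Fintype n] [DecidableEq n]

/-- The subgroup of `GL(K)` generated by the `exp(t e_i)` and the `exp(t f_i)`, `t ∈ K`. -/
def Grp (e f : J → Matrix n n ℚ) (K : Type) [Field K] [CharZero K] : Subgroup (GL n K) :=
  Subgroup.closure {g | ∃ (i : J) (t : K), g.1 = IsNilpotent.exp (t • (e i).map (algebraMap ℚ K)) ∨ g.1 = IsNilpotent.exp (t • (f i).map (algebraMap ℚ K))}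

variable {R : Type} [CommRing R]

/-- The matrices of the elements of a group of matrices. -/
def mat (H : Subgroup (GL n R)) : H →* Matrix n n R := (Units.coeHom (Matrix n n R)).comp H.subtype

variable {G : Type} [Group G] (ht : n → ℤ) (M : G →* Matrix n n R)

theorem uni_mul {g h : Matrix n n R} (hg : ∀ r c, ht r ≤ ht c → g r c = (1 : Matrix n n R) r c) (hh : ∀ r c, ht r ≤ ht c → h r c = (1 : Matrix n n R) r c) (r c : n) (hrc : ht r ≤ ht c) :
    (g * h) r c = (1 : Matrix n n R) r c := by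
  rw [Matrix.mul_apply, Finset.sum_eq_single r]
  · rw [hg r r le_rfl, hh r c hrc, Matrix.one_apply_eq, one_mul]
  · intro k _ hk
    by_cases h1 : ht r ≤ ht k
    · rw [hg r k h1, Matrix.one_apply_ne hk.symm, zero_mul]
    · by_cases h3 : k = c
      · subst h3
        exact absurd hrc h1
      · rw [hh k c ((not_le.1 h1).le.trans hrc), Matrix.one_apply_ne h3, mul_zero]
  · intro h
    exact absurd (Finset.mem_univ r) h

/-- **The unipotent group** `U`: the elements of `G` for which `g - 1` raises the height. -/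
def Uni : Subgroup G where
  carrier := {g | ∀ r c, ht r ≤ ht c → M g r c = (1 : Matrix n n R) r c ∧ M g⁻¹ r c = (1 : Matrix n n R) r c}
  one_mem' := fun r c _ => by simp
  mul_mem' := by
    intro g h hg hh r c hrc
    rw [_root_.mul_inv_rev, map_mul, map_mul]
    exact ⟨uni_mul ht (fun r c h => (hg r c h).1) (fun r c h => (hh r c h).1) r c hrc, uni_mul ht (fun r c h => (hh r c h).2) (fun r c h => (hg r c h).2) r c hrc⟩
  inv_mem' := by
    intro g hg r c hrc
    rw [inv_inv]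
    exact ⟨(hg r c hrc).2, (hg r c hrc).1⟩

variable (U : Subgroup G) [Algebra ℝ R] [Fintype J]

/-- The character `ψ(u) = e(∑ θ_i(u_i))` of `U`, `u_i` the entry of `u` at the place `a_i`, `e(x) = exp(2πix)`. -/
def psi (a : J → n × n) (θ : J → (R →ₗ[ℝ] ℝ)) (u : U) : ℂ := Complex.exp (2 * Real.pi * ((∑ i, θ i (M u.1 (a i).1 (a i).2) : ℝ) : ℂ) * Complex.I)

/-- **Nondegenerate characters**: all `θ_i` are nonzero and `ψ` is trivial on `Γ ∩ U`. -/
def Gen (Γ : Subgroup G) (a : J → n × n) (θ : J → (R →ₗ[ℝ] ℝ)) : Prop := (∀ i, θ i ≠ 0) ∧ ∀ u : U, u.1 ∈ Γ → psi M U a θ u = 1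

end matrices

section real

variable {n K R : Type} [Fintype n] [DecidableEq n] [Field K] [CommRing R] [TopologicalSpace R] [IsTopologicalRing R] (p : K →+* R) (A : Subgroup (GL n K)) (H : Subgroup A)

/-- **The real group** of `H ⊆ A ⊆ GL(K)`, `p : K → R`: the closure of `H` (in the closure of `A` in `GL(R)`). -/
def GR : Subgroup (Cl (GeneralLinearGroup.map (n := n) p) A) := Cl (em (GeneralLinearGroup.map p) A) H

/-- The type of its elements. -/
def RG : Type := GR p A H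

instance rgG : Group (RG p A H) := Subgroup.toGroup (GR p A H)

instance rgT : TopologicalSpace (RG p A H) := instTopologicalSpaceSubtype

/-- The embedding of `H` in the real group. -/
def emR : H →* RG p A H := em (em (GeneralLinearGroup.map p) A) H

/-- The matrices of the elements of the real group. -/
def matR : RG p A H →* Matrix n n R where
  toFun g := g.1.1.1
  map_one' := rfl
  map_mul' _ _ := rfl

end real

/-! ## 3. The local group -/

section localgroup

variable {n J : Type} [Fintype n] [DecidableEq n] [Fintype J] {F : Type} [RCLike F]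

/-- **The local group** `G(F)`, `F = ℝ` or `ℂ`: the closure of the group generated by the `exp(t e_i)` and the `exp(t f_i)`, `t ∈ F`. -/
def GF (e f : J → Matrix n n ℚ) (F : Type) [RCLike F] : Subgroup (GL n F) := (Grp e f F).topologicalClosure

/-- The type of its elements. -/
def LG (e f : J → Matrix n n ℚ) (F : Type) [RCLike F] : Type := GF e f F

instance lgG (e f : J → Matrix n n ℚ) (F : Type) [RCLike F] : Group (LG e f F) := Subgroup.toGroup (GF e f F)

instance lgT (e f : J → Matrix n n ℚ) (F : Type) [RCLike F] : TopologicalSpace (LG e f F) := instTopologicalSpaceSubtype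

instance lgM (e f : J → Matrix n n ℚ) (F : Type) [RCLike F] : MeasurableSpace (LG e f F) := borel _

/-- The matrices of its elements. -/
def matF (e f : J → Matrix n n ℚ) (F : Type) [RCLike F] : LG e f F →* Matrix n n F where
  toFun g := g.1.1
  map_one' := rfl
  map_mul' _ _ := rfl

variable {A : Type} [Group A] (m : A →* Matrix n n F)

/-- **The maximal compact subgroup** of the local group `A` (`m` its matrices): `C` is the group of the fixed points of the Cartan involution `ϑ`, the continuous automorphism of `A` which maps `exp(t e_i)` to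
`exp(-t̄ f_i)` and `exp(t f_i)` to `exp(-t̄ e_i)`. -/
def MaxC [TopologicalSpace A] (e f : J → Matrix n n ℚ) (C : Subgroup A) : Prop :=
  ∃ ϑ : A →* A, Continuous ϑ ∧ (∀ (i : J) (t : F) (g : A), (m g = IsNilpotent.exp (t • (e i).map (algebraMap ℚ F)) → m (ϑ g) = IsNilpotent.exp (-(star t) • (f i).map (algebraMap ℚ F))) ∧
    (m g = IsNilpotent.exp (t • (f i).map (algebraMap ℚ F)) → m (ϑ g) = IsNilpotent.exp (-(star t) • (e i).map (algebraMap ℚ F)))) ∧ ∀ g, g ∈ C ↔ ϑ g = g

/-- `ζ` is the normalised Haar measure of `C`. -/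
def Hm [MeasurableSpace A] (C : Subgroup A) (ζ : Measure A) : Prop := IsProbabilityMeasure ζ ∧ ζ (C : Set A)ᶜ = 0 ∧ ∀ k ∈ C, ζ.map (fun x => x * k) = ζ

/-- **The Iwasawa projection** `h : A → ℝ^J`: `g = u exp(h(g)) k` with `u` unipotent upper and `k ∈ C`; `exp(y)` is the diagonal matrix with the entries `exp(tor y r)`. -/
def Iw (ht : n → ℤ) (tor : (J → ℝ) → n → ℝ) (C : Subgroup A) (h : A → J → ℝ) : Prop :=
  ∀ g, ∃ u ∈ Uni ht m, ∃ t : A, ∃ k ∈ C, m t = Matrix.diagonal (fun r => ((Real.exp (tor (h g) r) : ℝ) : F)) ∧ g = u * t * k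

/-- **The spherical function** `Φ_z(g) = ∫ exp((z + ρ_F)(h(k g))) dζ(k)`, `ρ_F(y) = dF ∑ y_j`, `dF = [F : ℝ]`. -/
def Phz [MeasurableSpace A] (dF : ℕ) (ζ : Measure A) (h : A → J → ℝ) (z : J → ℂ) (g : A) : ℂ := ∫ k, Complex.exp (∑ j, (z j + dF) * (h (k * g) j : ℂ)) ∂ζ

/-- **Spherical eigenfunctions** `X` on a group `G` with the homomorphism `j : A → G`, with the parameter `z`: `∫ X(x j(k g)) dζ(k) = Φ_z(g) X(x)` for all `x ∈ G`, `g ∈ A`. -/
def Sph [TopologicalSpace A] [MeasurableSpace A] (e f : J → Matrix n n ℚ) (ht : n → ℤ) (tor : (J → ℝ) → n → ℝ) {G : Type} [Group G] (j : A →* G) (z : J → ℂ) (X : G → ℂ) : Prop :=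
  ∃ (C : Subgroup A) (ζ : Measure A) (h : A → J → ℝ), MaxC m e f C ∧ Hm C ζ ∧ Iw m ht tor C h ∧ ∀ x g, ∫ k, X (x * j (k * g)) ∂ζ = Phz (Module.finrank ℝ F) ζ h z g * X x

/-- **The embedding of the local group `A` at an archimedean place** `w` of `K` with `K_w = F` (`p : R → F` is surjective and `|p(x)| = |x|_w`, `R = K ⊗ ℝ`, `nr w x = |x|_w`): a continuous homomorphism `j : A → G`, `G`
a group of matrices over `R` (`M` its matrices), such that `j(g)` is `g` at `w` and `1` at the other archimedean places. -/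
structure Pl {K : Type} [Field K] [NumberField K] [TopologicalSpace A] {R : Type} [CommRing R] (nr : InfinitePlace K → R → ℝ) {G : Type} [Group G] [TopologicalSpace G] (M : G →* Matrix n n R) where
  /-- The place. -/
  w : InfinitePlace K
  /-- The completion. -/
  p : R →+* F
  surj : Function.Surjective p
  norm : ∀ x, ‖p x‖ = nr w x
  /-- The embedding. -/
  j : A →* G
  cont : Continuous j
  at_w : ∀ g r c, p (M (j g) r c) = m g r c
  off_w : ∀ w' : InfinitePlace K, w' ≠ w → ∀ g r c, nr w' ((M (j g) - 1) r c) = 0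

end localgroup

/-! ## 4. Number fields -/

section fields

variable {K : Type} [Field K] [NumberField K]

/-- `x ∈ 𝔞`, `𝔞` an ideal of `𝓞_K`. -/
def InO (𝔞 : Ideal (𝓞 K)) (x : K) : Prop := ∃ y ∈ 𝔞, (y : K) = x

section ideals

variable {𝔞 : Ideal (𝓞 K)} {x y : K}

theorem InO.add (hx : InO 𝔞 x) (hy : InO 𝔞 y) : InO 𝔞 (x + y) := by
  obtain ⟨a, ha, rfl⟩ := hx
  obtain ⟨c, hc, rfl⟩ := hy
  exact ⟨a + c, Ideal.add_mem _ ha hc, by simp⟩

theorem InO.zero (𝔞 : Ideal (𝓞 K)) : InO 𝔞 (0 : K) := ⟨0, Ideal.zero_mem _, by simp⟩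

theorem InO.sum {α : Type} (s : Finset α) (f : α → K) (h : ∀ k ∈ s, InO 𝔞 (f k)) : InO 𝔞 (∑ k ∈ s, f k) := by
  classical
  induction s using Finset.induction_on with
  | empty => simpa using InO.zero 𝔞
  | insert a s ha ih =>
    rw [Finset.sum_insert ha]
    exact (h a (Finset.mem_insert_self _ _)).add (ih fun k hk => h k (Finset.mem_insert_of_mem hk))

theorem InO.mul (hx : InO 𝔞 x) (hy : InO (⊤ : Ideal (𝓞 K)) y) : InO 𝔞 (x * y) := by
  obtain ⟨a, ha, rfl⟩ := hx
  obtain ⟨c, _, rfl⟩ := hy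
  exact ⟨a * c, Ideal.mul_mem_right _ _ ha, by simp⟩

theorem InO.top (hx : InO 𝔞 x) : InO (⊤ : Ideal (𝓞 K)) x := by
  obtain ⟨a, _, rfl⟩ := hx
  exact ⟨a, Submodule.mem_top, rfl⟩

theorem InO.one_top : InO (⊤ : Ideal (𝓞 K)) (1 : K) := ⟨1, Submodule.mem_top, by simp⟩

end ideals

variable (𝔫 : Ideal (𝓞 K)) (v : HeightOneSpectrum (𝓞 K)) (r s : ℕ)

/-- `x` is integral at `v`. -/
def IntV (x : K) : Prop := ∃ y : 𝓞 K, y ∉ v.asIdeal ∧ InO (⊤ : Ideal (𝓞 K)) ((y : K) * x)

variable {n : Type} [Fintype n] [DecidableEq n] (ht : n → ℤ)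

/-- Entries of `g - 1` in `𝔫`, lower entries (those which lower the height) in `v ^ (r + s)`, diagonal blocks congruent to `1` modulo `v ^ r`. -/
def Lev (g : Matrix n n K) : Prop :=
  ∀ i j, InO 𝔫 ((g - 1) i j) ∧ (ht i < ht j → InO (v.asIdeal ^ (r + s)) (g i j)) ∧ (ht i = ht j → InO (v.asIdeal ^ r) ((g - 1) i j))

/-- Entries integral at `v`, lower entries in `π ^ (r + s)`, diagonal blocks congruent to `1` modulo `π ^ r`. -/
def IwV (π : K) (g : Matrix n n K) : Prop :=
  ∀ i j, IntV v (g i j) ∧ (ht i < ht j → IntV v (π⁻¹ ^ (r + s) * g i j)) ∧ (ht i = ht j → IntV v (π⁻¹ ^ r * (g - 1) i j))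

/-- `g ∈ Γ_v λ(π)⁻¹`, `Γ_v` the group of level `r, s` at `v`, `λ(π)` the diagonal matrix with the entries `π ^ w_i` (`g`, `g'` the matrices of an element and of its inverse). -/
def AtV (π : K) (w : n → ℤ) (g g' : Matrix n n K) : Prop :=
  IwV v r s ht π (g * Matrix.diagonal fun i => π ^ w i) ∧ IwV v r s ht π ((Matrix.diagonal fun i => π ^ (-w i)) * g')

theorem lev_mul {g h : Matrix n n K} (hg : Lev 𝔫 v r s ht g) (hk : Lev 𝔫 v r s ht h) : Lev 𝔫 v r s ht (g * h) := by
  have hld : v.asIdeal ^ (r + s) ≤ v.asIdeal ^ r := Ideal.pow_le_pow_right (Nat.le_add_right r s)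
  have int : ∀ a : Matrix n n K, (∀ r c, InO 𝔫 ((a - 1) r c)) → ∀ r c, InO (⊤ : Ideal (𝓞 K)) (a r c) := by
    intro a ha r c
    have e : a r c = (a - 1) r c + (1 : Matrix n n K) r c := by simp
    rw [e]
    refine (ha r c).top.add ?_
    by_cases h : r = c
    · subst h
      rw [Matrix.one_apply_eq]
      exact InO.one_top
    · rw [Matrix.one_apply_ne h]
      exact InO.zero _
  have mono : ∀ {x : K}, InO (v.asIdeal ^ (r + s)) x → InO (v.asIdeal ^ r) x := fun ⟨y, hy, e⟩ => ⟨y, hld hy, e⟩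
  have ig := int g fun r c => (hg r c).1
  have ih := int h fun r c => (hk r c).1
  have e : g * h - 1 = (g - 1) * h + (h - 1) := by
    rw [sub_mul, one_mul]
    abel
  intro i c
  refine ⟨?_, ?_, ?_⟩
  · rw [e, Matrix.add_apply, Matrix.mul_apply]
    exact (InO.sum _ _ fun k _ => (hg i k).1.mul (ih k c)).add (hk i c).1
  · intro hrc
    rw [Matrix.mul_apply]
    refine InO.sum _ _ fun k _ => ?_
    by_cases h1 : ht i < ht k
    · exact ((hg i k).2.1 h1).mul (ih k c)
    · rw [mul_comm]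
      exact ((hk k c).2.1 ((not_lt.1 h1).trans_lt hrc)).mul (ig i k)
  · intro hrc
    rw [e, Matrix.add_apply, Matrix.mul_apply]
    refine (InO.sum _ _ fun k _ => ?_).add ((hk i c).2.2 hrc)
    rcases lt_trichotomy (ht i) (ht k) with h1 | h1 | h1
    · have hrk : i ≠ k := by
        rintro rfl
        exact absurd h1 (lt_irrefl _)
      have e1 : (g - 1) i k = g i k := by rw [Matrix.sub_apply, Matrix.one_apply_ne hrk, sub_zero]
      rw [e1]
      exact (mono ((hg i k).2.1 h1)).mul (ih k c)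
    · exact ((hg i k).2.2 h1).mul (ih k c)
    · rw [mul_comm]
      exact (mono ((hk k c).2.1 (h1.trans_le hrc.le))).mul (hg i k).1.top

theorem lev_one : Lev 𝔫 v r s ht (1 : Matrix n n K) := by
  intro i j
  rw [sub_self]
  refine ⟨InO.zero _, fun h => ?_, fun _ => InO.zero _⟩
  rw [Matrix.one_apply_ne (by rintro rfl; exact absurd h (lt_irrefl _))]
  exact InO.zero _

variable {H : Type} [Group H] (M : H →* Matrix n n K)

/-- The elements `g` of the group `H` of matrices over `K` with `g`, `g⁻¹` of level `𝔫`, `r`, `s` (`Lev`). -/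
def GamA : Subgroup H where
  carrier := {g | Lev 𝔫 v r s ht (M g) ∧ Lev 𝔫 v r s ht (M g⁻¹)}
  one_mem' := by
    show Lev 𝔫 v r s ht (M 1) ∧ Lev 𝔫 v r s ht (M 1⁻¹)
    rw [inv_one, map_one]
    exact ⟨lev_one 𝔫 v r s ht, lev_one 𝔫 v r s ht⟩
  mul_mem' := by
    intro g h hg hh
    show Lev 𝔫 v r s ht (M (g * h)) ∧ Lev 𝔫 v r s ht (M (g * h)⁻¹)
    rw [_root_.mul_inv_rev, map_mul, map_mul]
    exact ⟨lev_mul _ _ _ _ _ hg.1 hh.1, lev_mul _ _ _ _ _ hh.2 hg.2⟩
  inv_mem' := by
    intro g hg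
    show Lev 𝔫 v r s ht (M g⁻¹) ∧ Lev 𝔫 v r s ht (M g⁻¹⁻¹)
    rw [inv_inv]
    exact ⟨hg.2, hg.1⟩

/-- The elements of `H` over `𝓞[1/v]` with `g ≡ 1` modulo `𝔫` (`𝔫` prime to `v`): `v ^ j (g - 1) ⊆ 𝔫` for some `j`, and the same for `g⁻¹`. -/
def HG : Set H := {g | ∃ j : ℕ, ∀ a b, ∀ y ∈ v.asIdeal ^ j, InO 𝔫 ((y : K) * (M g - 1) a b) ∧ InO 𝔫 ((y : K) * (M g⁻¹ - 1) a b)}

variable {G : Type} [Group G]

/-- **The arithmetic group** `Γ`: the image in `G` of the elements of `H` of level `𝔫`, `r`, `s`. -/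
def Gam (τ : H →* G) : Subgroup G := (GamA 𝔫 v r s ht M).map τ

variable {R : Type} [CommRing R] [TopologicalSpace R] [Algebra ℝ R] {J : Type} [Fintype J]

variable (K) in
/-- **The density theorem for groups of matrices** `H` over `K` and `G` over `R` (`Mₕ`, `M` their matrices, `τ : H → G` the embedding, `U` the unipotent group of `G`, `a_i` the places of the matrix entries which give the
characters of `U`, `Sp_k z F`: `F` has the parameter `z`, `Adm` the admissible data). For `ε > 0`, `T` and a compact set `Ω` in `G` there is `C` such that for all levels `𝔫`, `v`, `r`, `s` (`𝔫 ≠ 0` prime to the finite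
place `v`), Hecke elements `h ∈ Γ_v w(π)⁻¹`, nondegenerate characters `ψ` (given by `θ`), diagonal `t = diag(d)` in `G`, `x ∈ U t Ω`, `R_k ≥ 0`, admissible data (`w` the weights of the Hecke element, `X` the bound) and
continuous `φ` with support in `Ω` the inequality of `Bound` holds with `C ‖φ‖₂² X`. -/
def Est [TopologicalSpace G] (Mₕ : H →* Matrix n n K) (M : G →* Matrix n n R) (τ : H →* G) (a : J → n × n) (p : ℕ) (Sp : Fin p → (J → ℂ) → (G → ℂ) → Prop) (O : Fin p → Set (J → ℝ))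
    (Adm : ℝ → Ideal (𝓞 K) → HeightOneSpectrum (𝓞 K) → ℕ → (n → ℤ) → (n → R) → (Fin p → ℝ) → ℝ → Prop) : Prop :=
  ∀ [MeasurableSpace G] [BorelSpace G] [MeasurableSpace (Uni ht M)] [BorelSpace (Uni ht M)] (ε T : ℝ), 0 < ε → ∀ Ω : Set G, IsCompact Ω → ∃ C : ℝ,
    ∀ (v : HeightOneSpectrum (𝓞 K)) (𝔫 : Ideal (𝓞 K)), 𝔫 ≠ ⊥ → ¬𝔫 ≤ v.asIdeal → ∀ (r s : ℕ) (π : K), v.valuation K π = WithZero.exp (-1 : ℤ) →
    ∀ (h : H) (w : n → ℤ), h ∈ HG 𝔫 v Mₕ → AtV v r s ht π w (Mₕ h) (Mₕ h⁻¹) → ∀ θ : J → (R →ₗ[ℝ] ℝ), Gen M (Uni ht M) (Gam 𝔫 v r s ht Mₕ τ) a θ →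
    ∀ (t x : G) (d : n → R), M t = Matrix.diagonal d → (∃ u ∈ Uni ht M, ∃ ω ∈ Ω, x = u * t * ω) → ∀ (R' : Fin p → ℝ) (X : ℝ), (∀ k, 0 ≤ R' k) → Adm ε 𝔫 v (r + s) w d R' X →
    ∀ (μ : Measure G) [μ.IsHaarMeasure] (φ : G → ℂ), Continuous φ → tsupport φ ⊆ Ω → ∀ (ν : Measure (Uni ht M)) [ν.IsHaarMeasure],
    Bound (Uni ht M) (Gam 𝔫 v r s ht Mₕ τ) μ ν (τ h) φ (psi M (Uni ht M) a θ) x p Sp O T ε R' (C * (∫ y, ‖φ y‖ ^ 2 ∂μ) * X)

variable (K) in
/-- **The density theorem for groups of matrices**, all archimedean places: for every archimedean place `w` of `K` there is the embedding of the local group `G(K_w)` in `G`, and the estimate `Est` holds for all finite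
families of embeddings of local groups `G(F_k)`, `F_k = ℝ` or `ℂ`, and all `Λ_k` in the set `Dom`. -/
def Dens [TopologicalSpace G] (Mₕ : H →* Matrix n n K) (M : G →* Matrix n n R) (τ : H →* G) (nr : InfinitePlace K → R → ℝ) (e f : J → Matrix n n ℚ) (tor : (J → ℝ) → n → ℝ) (a : J → n × n)
    (Dom : Set (J → ℝ)) (O : (J → ℝ) → Set (J → ℝ)) (Adm : (p : ℕ) → (Fin p → ℕ) → (Fin p → J → ℝ) → ℝ → Ideal (𝓞 K) → HeightOneSpectrum (𝓞 K) → ℕ → (n → ℤ) → (n → R) → (Fin p → ℝ) → ℝ → Prop) : Prop :=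
  (∀ w : InfinitePlace K, (w.IsReal → ∃ V : Pl (matF e f ℝ) nr M, V.w = w) ∧ (w.IsComplex → ∃ V : Pl (matF e f ℂ) nr M, V.w = w)) ∧
  ∀ (p : ℕ) (F : Fin p → Type) [∀ k, RCLike (F k)] (V : ∀ k, Pl (matF e f (F k)) nr M) (Λ : Fin p → J → ℝ), (∀ k, Λ k ∈ Dom) →
    Est K ht Mₕ M τ a p (fun k => Sph (matF e f (F k)) e f ht tor (V k).j) (fun k => O (Λ k)) (Adm p (fun k => Module.finrank ℝ (F k)) Λ)

variable (K) in
/-- **The density theorem for** `H ⊆ A ⊆ GL(K)` and its real group over `R`. -/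
def DensCl [IsTopologicalRing R] (i : K →+* R) (A : Subgroup (GL n K)) (H : Subgroup A) (nr : InfinitePlace K → R → ℝ) (e f : J → Matrix n n ℚ) (tor : (J → ℝ) → n → ℝ) (a : J → n × n)
    (Dom : Set (J → ℝ)) (O : (J → ℝ) → Set (J → ℝ)) (Adm : (p : ℕ) → (Fin p → ℕ) → (Fin p → J → ℝ) → ℝ → Ideal (𝓞 K) → HeightOneSpectrum (𝓞 K) → ℕ → (n → ℤ) → (n → R) → (Fin p → ℝ) → ℝ → Prop) : Prop :=
  Dens K ht ((mat A).comp H.subtype) (matR i A H) (emR i A H) nr e f tor a Dom O Adm

end fields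

/-! ## 5. Root systems -/

section roots

variable {ι M N : Type} [Fintype ι] [DecidableEq ι] [AddCommGroup M] [Module ℚ M] [AddCommGroup N] [Module ℚ N]
  {P : RootPairing ι ℚ M N} [P.IsCrystallographic] (b : P.Base)

/-- The value `β(y)` of the vector `y = ∑ y_j α_j^∨` on a root. -/
def vl (y : b.support → ℝ) (β : ι) : ℝ := ∑ j : b.support, (P.pairingIn ℤ β j : ℝ) * y j

/-- The orbit of the vector `y` under the Weyl group: `(w β)(y') = β(y)`. -/
def Orb (y : b.support → ℝ) : Set (b.support → ℝ) := {y' | ∃ w ∈ Subgroup.closure (Set.range P.reflectionPerm), ∀ β, vl b y' (w β) = vl b y β}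

/-- The value `⟨β, λ⟩` of the coweight `λ = ∑ c_j α_j^∨` on a root. -/
def pr (c : b.support → ℤ) (β : ι) : ℤ := ∑ j, c j * P.pairingIn ℤ β j

/-- The Cartan matrix of the base `b` is `A`. -/
def Typ {n : ℕ} (A : Matrix (Fin n) (Fin n) ℤ) : Prop := ∃ e : b.support ≃ Fin n, ∀ i j : b.support, P.pairingIn ℤ i j = A (e i) (e j)

/-- **The number** `D`: `D / 2` is the dimension of the group for the types `A₁`, `A₂`, `B₂`, and it is larger for all other types: `16`, `28` for `A₃`, `A₄` and `3 n² / 2` for `A_n`, `n ≥ 5`; `3 n (2 n - 1) / 2`,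
`n (3 n - 1)`, `(n - 1) (3 n - 2)` for `B_n`, `C_n`, `D_n`; `18`, `104`, `152`, `306`, `957` for `G₂`, `F₄`, `E₆`, `E₇`, `E₈` (the dimensions are `n (n + 2)`, `n (2 n + 1)`, `n (2 n + 1)`, `n (2 n - 1)` and `14`, `52`, `78`,
`133`, `248`). -/
def Dim (D : ℕ) : Prop :=
  (∃ n : ℕ, (1 ≤ n ∧ n ≤ 2 ∧ Typ b (CartanMatrix.A n) ∧ D = 2 * n * (n + 2)) ∨ (n = 3 ∧ Typ b (CartanMatrix.A n) ∧ D = 32) ∨ (n = 4 ∧ Typ b (CartanMatrix.A n) ∧ D = 56) ∨
    (5 ≤ n ∧ Typ b (CartanMatrix.A n) ∧ D = 3 * n ^ 2) ∨ (n = 2 ∧ Typ b (CartanMatrix.B n) ∧ D = 20) ∨ (3 ≤ n ∧ Typ b (CartanMatrix.B n) ∧ D = 3 * n * (2 * n - 1)) ∨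
    (3 ≤ n ∧ Typ b (CartanMatrix.C n) ∧ D = 2 * n * (3 * n - 1)) ∨ (4 ≤ n ∧ Typ b (CartanMatrix.D n) ∧ D = 2 * (n - 1) * (3 * n - 2))) ∨
  (Typ b CartanMatrix.G₂ ∧ D = 36) ∨ (Typ b CartanMatrix.F₄ ∧ D = 208) ∨ (Typ b CartanMatrix.E₆ ∧ D = 304) ∨ (Typ b CartanMatrix.E₇ ∧ D = 612) ∨ (Typ b CartanMatrix.E₈ ∧ D = 1914)

variable {K : Type} [Field K] [NumberField K]

/-- **The admissible data** for the dominant vectors `Λ_k` and `d_k = [F_k : ℝ]` (`N = N(𝔫)`, `q = N(v)`, `|z|` the absolute value of the norm from `K ⊗ ℝ` to `ℝ`): `w` are the weights of a dominant coweight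
`λ = ∑ c_j α_j^∨`, `r + s ≥ 1` or `λ = 0`; `d` has the entries `a_β` at the roots and `1` at the zero weights, `|a_i| ≥ N` for the simple roots `α_i`; **`exp(2 ∑_k R_k ρ_k(Λ_k)) Q ≤ N ^ (D / 2)`**,
`ρ_k(Λ) = d_k ∑ Λ_j`, `Q = q ^ (∑_{β > 0} ⟨β, λ⟩)`; `X = Q ^ (1 + ε) ∏_{β > 0} |a_β| / N`. -/
def Adm (p : ℕ) (dF : Fin p → ℕ) (Λ : Fin p → b.support → ℝ) (ε : ℝ) (𝔫 : Ideal (𝓞 K)) (v : HeightOneSpectrum (𝓞 K)) (rs : ℕ) (w : b.support ⊕ ι → ℤ) (d : b.support ⊕ ι → mixedEmbedding.mixedSpace K) (R : Fin p → ℝ)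
    (X : ℝ) : Prop :=
  ∃ (c : b.support → ℤ) (a : ι → mixedEmbedding.mixedSpace K) (D : ℕ), (∀ i : b.support, 0 ≤ pr b c i) ∧ (1 ≤ rs ∨ c = 0) ∧ w = Sum.elim (fun _ => 0) (pr b c) ∧ d = Sum.elim (fun _ => 1) a ∧ Dim b D ∧
    (∀ i : b.support, (Ideal.absNorm 𝔫 : ℝ) ≤ mixedEmbedding.norm (a i)) ∧
    Real.exp (2 * ∑ k, R k * (dF k * ∑ j, Λ k j)) * (Ideal.absNorm v.asIdeal : ℝ) ^ (∑ β with 0 < b.height β, pr b c β) ≤ (Ideal.absNorm 𝔫 : ℝ) ^ ((D : ℝ) / 2) ∧
    X = ((Ideal.absNorm v.asIdeal : ℝ) ^ (∑ β with 0 < b.height β, pr b c β)) ^ (1 + ε) * ∏ β with 0 < b.height β, mixedEmbedding.norm (a β) / Ideal.absNorm 𝔫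

end roots

/-! ## 6. The statement -/

section statement

variable {ι M N : Type} [Fintype ι] [DecidableEq ι] [AddCommGroup M] [Module ℚ M] [AddCommGroup N] [Module ℚ N]
  {P : RootPairing ι ℚ M N} [P.IsCrystallographic] (b : P.Base) (K : Type) [Field K] [NumberField K]

/-- The split group `G(K)`, generated by the `exp(t e_i)`, `exp(t f_i)`, `t ∈ K`. -/
def GS : Subgroup (GL (b.support ⊕ ι) K) := Grp RootPairing.GeckConstruction.e RootPairing.GeckConstruction.f K

/-- **The density theorem** for the globally generic spectrum of the split simple group `G(K)` of type `P` over the number field `K`, at archimedean places `w_1, …, w_p` and a finite place `v`, for dominant vectors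
`Λ_k`. The entry of `u ∈ U` in the row of the zero weight of `α_i` and the column of the root `-α_i` is the coordinate of `u` at `α_i`; the exponential `exp(y)` of `y = ∑ y_j α_j^∨` is the diagonal matrix with the
entries `exp(β(y))` at the roots and `1` at the zero weights. -/
def BeyondDensity : Prop :=
  DensCl K (Sum.elim (fun _ => 0) b.height) (mixedEmbedding K) (GS b K) ⊤ (fun w => mixedEmbedding.normAtPlace w) RootPairing.GeckConstruction.e RootPairing.GeckConstruction.f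
    (fun y => Sum.elim (fun _ => 0) (vl b y)) (fun i => (Sum.inl i, Sum.inr (P.reflectionPerm i i))) {Λ | ∀ i : b.support, 0 ≤ vl b Λ i} (Orb b) (Adm b)

end statement

end

end Pool.Agent.Lib.L8.PX
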