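import Pool.Agent.Lib.L8.PX.Main
import Pool.Agent.Lib.L8.FL.M2
import Pool.Agent.Lib.L8.FL.M6
import Pool.Agent.Lib.L8.FL.M2H

/-!
# The density theorem, from the count
-/

namespace Pool.Agent.Lib.L8.PX

open MeasureTheory Matrix NumberField IsDedekindDomain

noncomputable section

variable {ι M N : Type} [Fintype ι] [DecidableEq ι] [AddCommGroup M] [Module ℚ M] [AddCommGroup N] [Module ℚ N]
  {P : RootPairing ι ℚ M N} [P.IsCrystallographic] [P.IsRootSystem] [P.IsReduced] [P.IsIrreducible] {b : P.Base} {K : Type} [Field K] [NumberField K]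

/-- **The density theorem**, from the count with exponents `ν` and the inequalities for `ν`. -/
theorem beyond_of_count {nu : Equiv.Perm ι → ℝ} (h : ∀ D, Dim b D → L8.FL.IneqR b ((D : ℝ) / 2) nu) (hC : L8.FL.CountH b K nu) : BeyondDensity b K := by
  refine beyond_of fun D hD => L8.FL.statementDR_of (q0 b K) (Module.finrank_self K) ?_ (L8.FL.statementVF_of (q0 b K) (L8.FL.statementMF_of (q0 b K) (Module.finrank_self K) (fun w hw => (h D hD w hw).1) hC
    (L8.FL.heightsH b K)) (L8.FL.oppH b)) (h D hD)
  have h1 : (0 : ℝ) < (D : ℝ) := by exact_mod_cast (dim_bd hD).1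
  linarith

end

end Pool.Agent.Lib.L8.PX
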