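import Pool.Agent.Lib.L8.PX.Fin
import Pool.Agent.Lib.L8.FL.BG
import Pool.Agent.Lib.L8.FU.W5

/-!
# The density theorem
-/

namespace Pool.Agent.Lib.L8.PX

open MeasureTheory Matrix NumberField IsDedekindDomain

noncomputable section

variable {ι M N : Type} [Fintype ι] [DecidableEq ι] [AddCommGroup M] [Module ℚ M] [AddCommGroup N] [Module ℚ N]
  {P : RootPairing ι ℚ M N} [P.IsCrystallographic] [P.IsRootSystem] [P.IsReduced] [P.IsIrreducible]

/-- **The density theorem.** -/
theorem beyond (b : P.Base) (K : Type) [Field K] [NumberField K] : BeyondDensity b K := by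
  obtain ⟨nu, h1, _, _, h4⟩ := L8.FL.exists_nuR b
  exact beyond_of_count h1 (L8.FU.countH_of b K h4)

end

end Pool.Agent.Lib.L8.PX
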