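import Pool.Agent.Lib.L8.PV.Main
import Pool.Agent.Lib.L8.PX.Stm
import Pool.Agent.Lib.L8.FL.R5
import Pool.Agent.Lib.L8.FL.M2A

/-!
# The density hypothesis: the equivalence of the two forms of the statement
-/

namespace Pool.Agent.Lib.L8.PX

open MeasureTheory Matrix NumberField IsDedekindDomain

noncomputable section

set_option linter.unusedSectionVars false

variable {ι M N : Type} [Fintype ι] [DecidableEq ι] [AddCommGroup M] [Module ℚ M] [AddCommGroup N] [Module ℚ N]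
  {P : RootPairing ι ℚ M N} [P.IsCrystallographic] (b : P.Base) (K : Type) [Field K] [NumberField K]

/-- The trivial action. -/
def qt : PV.QS b K K := ⟨1, fun _ _ => Iff.rfl, fun _ _ _ => rfl⟩

/-- The trivial action in the form of QStm.lean. -/
abbrev q0 : L1S.QS b K K := PV.old (qt b K)

/-- The height. -/
abbrev hb (b : P.Base) : b.support ⊕ ι → ℤ := Sum.elim (fun _ => 0) b.height

/-- `e_i`, `f_i`. -/
abbrev eb (b : P.Base) : b.support → Matrix (b.support ⊕ ι) (b.support ⊕ ι) ℚ := RootPairing.GeckConstruction.e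

abbrev fb (b : P.Base) : b.support → Matrix (b.support ⊕ ι) (b.support ⊕ ι) ℚ := RootPairing.GeckConstruction.f

/-- The group `G(K)`. -/
abbrev H0 : Subgroup (GS b K) := PV.GQ (qt b K)

/-- The real group. -/
abbrev Gr : Type := RG (n := b.support ⊕ ι) (mixedEmbedding K) (GS b K) (H0 b K)

/-- Its matrices. -/
abbrev Mr : Gr b K →* Matrix (b.support ⊕ ι) (b.support ⊕ ι) (mixedEmbedding.mixedSpace K) := matR (mixedEmbedding K) (GS b K) (H0 b K)

/-- The matrices of `G(K)`. -/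
abbrev Mh : H0 b K →* Matrix (b.support ⊕ ι) (b.support ⊕ ι) K := (mat (GS b K)).comp (H0 b K).subtype

/-- The embedding. -/
abbrev em0 : H0 b K →* Gr b K := emR (mixedEmbedding K) (GS b K) (H0 b K)

/-- The places. -/
abbrev PlS (F : Type) [RCLike F] : Type := Pl (matF (eb b) (fb b) F) (fun w : InfinitePlace K => (mixedEmbedding.normAtPlace w : mixedEmbedding.mixedSpace K → ℝ)) (Mr b K)

variable {b K}

theorem gr_eq : Gr b K = L1S.HRt (L1S.HQ (q0 b K)) := rfl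

theorem uni_eq : Uni (hb b) (Mr b K) = L1S.UHR (L1S.HQ (q0 b K)) := rfl

/-! ## Ideals -/

theorem up_eq (𝔞 : Ideal (𝓞 K)) : L1S.up K 𝔞 = 𝔞 := by
  refine (congrArg (fun f : 𝓞 K →+* 𝓞 K => Ideal.map f 𝔞) (?_ : _ = RingHom.id (𝓞 K))).trans (Ideal.map_id 𝔞)
  ext x
  rfl

theorem inO_iff (𝔞 : Ideal (𝓞 K)) (x : K) : L1S.InI (L1S.up K 𝔞) x ↔ InO 𝔞 x := by
  rw [up_eq]
  exact Iff.rfl

theorem intV_iff (v : HeightOneSpectrum (𝓞 K)) (x : K) : L1S.IntV v x ↔ IntV v x := Iff.rfl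

theorem gamA_eq (𝔫 : Ideal (𝓞 K)) (v : HeightOneSpectrum (𝓞 K)) (r s : ℕ) : GamA 𝔫 v r s (hb b) (Mh b K) = L1S.GamQ (L1S.HQ (q0 b K)) 𝔫 v r s := by
  ext g
  constructor
  · intro h i j
    have h1 := h.1 i j
    have h2 := h.2 i j
    exact ⟨⟨(inO_iff _ _).2 h1.1, fun e => (inO_iff _ _).2 (h1.2.1 e), fun e => (inO_iff _ _).2 (h1.2.2 e)⟩, ⟨(inO_iff _ _).2 h2.1, fun e => (inO_iff _ _).2 (h2.2.1 e), fun e => (inO_iff _ _).2 (h2.2.2 e)⟩⟩
  · intro h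
    refine ⟨fun i j => ?_, fun i j => ?_⟩
    · have h1 := (h i j).1
      exact ⟨(inO_iff _ _).1 h1.1, fun e => (inO_iff _ _).1 (h1.2.1 e), fun e => (inO_iff _ _).1 (h1.2.2 e)⟩
    · have h1 := (h i j).2
      exact ⟨(inO_iff _ _).1 h1.1, fun e => (inO_iff _ _).1 (h1.2.1 e), fun e => (inO_iff _ _).1 (h1.2.2 e)⟩

theorem gam_eq (𝔫 : Ideal (𝓞 K)) (v : HeightOneSpectrum (𝓞 K)) (r s : ℕ) : Gam 𝔫 v r s (hb b) (Mh b K) (em0 b K) = L1S.GamHR (L1S.HQ (q0 b K)) 𝔫 v r s := by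
  unfold Gam
  rw [gamA_eq]
  rfl

theorem hgl_of {𝔫 : Ideal (𝓞 K)} {v : HeightOneSpectrum (𝓞 K)} {h : H0 b K} (hh : h ∈ HG 𝔫 v (Mh b K)) : h.1 ∈ L1S.HGL b K 𝔫 v := by
  obtain ⟨j, hj⟩ := hh
  exact ⟨j, fun r c => ⟨fun y hy => (inO_iff _ _).2 (hj r c y hy).1, fun y hy => (inO_iff _ _).2 (hj r c y hy).2⟩⟩

theorem at_of {v : HeightOneSpectrum (𝓞 K)} {r s : ℕ} {π : K} {c : b.support → ℤ} {h : H0 b K}
    (hh : AtV v r s (hb b) π (Sum.elim (fun _ => 0) (pr b c)) (Mh b K h) (Mh b K h⁻¹)) : L1S.AtVL b v r s π c h.1 := by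
  obtain ⟨h2, h3⟩ := hh
  constructor
  · have e : (fun i => algebraMap K K π ^ L1S.pr b c i) = fun i => π ^ (Sum.elim (fun _ => 0) (pr b c) : b.support ⊕ ι → ℤ) i := by
      funext i
      rcases i with i | β <;> rfl
    rw [e]
    exact h2
  · have e : (fun i => algebraMap K K π ^ (-L1S.pr b c i)) = fun i => π ^ (-(Sum.elim (fun _ => 0) (pr b c) : b.support ⊕ ι → ℤ) i) := by
      funext i
      rcases i with i | β <;> rfl
    rw [e]
    exact h3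

theorem algEquiv_one (s : K ≃ₐ[K] K) : s = 1 := by
  ext x
  exact s.commutes x

theorem gen_of {𝔫 : Ideal (𝓞 K)} {v : HeightOneSpectrum (𝓞 K)} {r s : ℕ} {θ : b.support → (mixedEmbedding.mixedSpace K →ₗ[ℝ] ℝ)}
    (h : Gen (Mr b K) (Uni (hb b) (Mr b K)) (Gam 𝔫 v r s (hb b) (Mh b K) (em0 b K)) (fun i => (Sum.inl i, Sum.inr (P.reflectionPerm i i))) θ) : L1S.GenQ (q0 b K) 𝔫 v r s θ := by
  have hu : Unique (K ≃ₐ[K] K) := ⟨⟨1⟩, algEquiv_one⟩
  refine ⟨fun i => ?_, fun u hu => h.2 u ?_⟩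
  · by_contra hc
    push Not at hc
    refine h.1 i ?_
    have h1 : ∀ z : K, θ i (mixedEmbedding K z) = 0 := by
      intro z
      have h2 := hc z
      rw [Fintype.sum_eq_single (1 : K ≃ₐ[K] K) fun s hs => absurd (algEquiv_one s) hs] at h2
      have h3 : ((q0 b K).da 1).sp i = i := rfl
      rw [h3] at h2
      exact h2
    refine (mixedEmbedding.latticeBasis K).ext fun j => ?_
    rw [mixedEmbedding.latticeBasis_apply, h1, LinearMap.zero_apply]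
  · rw [gam_eq]
    exact hu

/-! ## The archimedean places -/

theorem comap_id (w : InfinitePlace K) : w.comap (algebraMap K K) = w := by
  refine InfinitePlace.ext _ _ fun x => ?_
  rfl

theorem unr (w : InfinitePlace K) : w.IsUnramified K := by
  unfold InfinitePlace.IsUnramified
  rw [comap_id]

section places

variable {F : Type} [RCLike F]

/-- The embedding in the form of `PV`. -/
def toPV (V : PlS b K F) : PV.Pl K (PV.eQ b) (PV.fQ b) (PV.GR (qt b K)) F where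
  w := V.w
  unr := unr V.w
  p := V.p
  surj := V.surj
  norm := V.norm
  j := V.j
  cont := V.cont
  at_w := V.at_w
  off_w := fun w' hw g r c => V.off_w w' (fun e => hw (by rw [e])) g r c

/-- The embedding in the final form. -/
def ofPV (V : PV.Pl K (PV.eQ b) (PV.fQ b) (PV.GR (qt b K)) F) : PlS b K F where
  w := V.w
  p := V.p
  surj := V.surj
  norm := V.norm
  j := V.j
  cont := V.cont
  at_w := V.at_w
  off_w := fun w' hw g r c => V.off_w w' (fun e => hw (by rwa [comap_id, comap_id] at e)) g r c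

variable [P.IsRootSystem] [P.IsReduced] [P.IsIrreducible]

theorem sph_of {V : PlS b K F} {z : b.support → ℂ} {X : Gr b K → ℂ} (h : Sph (matF (eb b) (fb b) F) (eb b) (fb b) (hb b) (fun y => Sum.elim (fun _ => 0) (vl b y)) V.j z X) :
    PV.Sph (PV.h0 b) (PV.tor0 b) (toPV V).j z X := h

theorem places (w : InfinitePlace K) : (w.IsReal → ∃ V : PlS b K ℝ, V.w = w) ∧ (w.IsComplex → ∃ V : PlS b K ℂ, V.w = w) := by
  obtain ⟨h1, h2⟩ := (PV.expDensity (qt b K)).1 w (unr w)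
  refine ⟨fun h => ?_, fun h => ?_⟩
  · obtain ⟨V, hV⟩ := h1 h
    exact ⟨ofPV V, hV⟩
  · obtain ⟨V, hV⟩ := h2 h
    exact ⟨ofPV V, hV⟩

end places

/-! ## The theorem -/

section main

variable [P.IsRootSystem] [P.IsReduced] [P.IsIrreducible]

theorem orb_of {Λ y : b.support → ℝ} (h : y ∈ Orb b Λ) : ∃ l : List b.support, y = L8.wl (fun i j => b.cartanMatrix i j) l Λ := PV.orb_of h

theorem typ_card {n : ℕ} {A : Matrix (Fin n) (Fin n) ℤ} (h : Typ b A) : n = Fintype.card b.support := by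
  obtain ⟨e, _⟩ := h
  rw [Fintype.card_congr e, Fintype.card_fin]

/-- The numbers `D` are bounded and positive. -/
theorem dim_bd {D : ℕ} (h : Dim b D) : 0 < D ∧ D ≤ 6 * Fintype.card b.support ^ 2 + 4 * Fintype.card b.support + 1914 := by
  rcases h with ⟨n, ⟨h1, h2, h3, rfl⟩ | ⟨rfl, h3, rfl⟩ | ⟨rfl, h3, rfl⟩ | ⟨h1, h3, rfl⟩ | ⟨rfl, h3, rfl⟩ | ⟨h1, h3, rfl⟩ | ⟨h1, h3, rfl⟩ | ⟨h1, h3, rfl⟩⟩ | ⟨_, rfl⟩ | ⟨_, rfl⟩ | ⟨_, rfl⟩ | ⟨_, rfl⟩ | ⟨_, rfl⟩
  · rw [← typ_card h3]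
    refine ⟨by positivity, by nlinarith⟩
  · omega
  · omega
  · rw [← typ_card h3]
    refine ⟨by positivity, by nlinarith⟩
  · omega
  · rw [← typ_card h3]
    have h4 : 3 * n * (2 * n - 1) ≤ 3 * n * (2 * n) := Nat.mul_le_mul_left _ (Nat.sub_le _ _)
    refine ⟨Nat.mul_pos (by omega) (by omega), by nlinarith⟩
  · rw [← typ_card h3]
    have h4 : 2 * n * (3 * n - 1) ≤ 2 * n * (3 * n) := Nat.mul_le_mul_left _ (Nat.sub_le _ _)
    refine ⟨Nat.mul_pos (by omega) (by omega), by nlinarith⟩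
  · rw [← typ_card h3]
    have h4 : 2 * (n - 1) * (3 * n - 2) ≤ 2 * n * (3 * n) := Nat.mul_le_mul (Nat.mul_le_mul_left _ (Nat.sub_le _ _)) (Nat.sub_le _ _)
    refine ⟨Nat.mul_pos (by omega) (by omega), by nlinarith⟩
  all_goals omega

/-- The largest number `D`. -/
theorem ex_dim (h : ∃ D, Dim b D) : ∃ D, Dim b D ∧ ∀ D', Dim b D' → D' ≤ D := by
  have h2 : BddAbove {D | Dim b D} := ⟨_, fun D hD => (dim_bd hD).2⟩
  exact ⟨sSup {D | Dim b D}, Nat.sSup_mem h h2, fun D' h => le_csSup h2 h⟩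

theorem aut_of {𝔫 : Ideal (𝓞 K)} {v : HeightOneSpectrum (𝓞 K)} {r s : ℕ} {μ : Measure (L1S.HRt (L1S.HQ (q0 b K)))} {D : Set (L1S.HRt (L1S.HQ (q0 b K)))} {h : H0 b K}
    {φ F : L1S.HRt (L1S.HQ (q0 b K)) → ℂ} {c t : ℂ} (hF : Aut (L1S.GamHR (L1S.HQ (q0 b K)) 𝔫 v r s) μ D (em0 b K h) φ F c t) :
    L1S.AuE (L1S.HQ (q0 b K)) (L1S.GamQ (L1S.HQ (q0 b K)) 𝔫 v r s) μ D φ c F ∧ L1S.IsTH (L1S.HQ (q0 b K)) 𝔫 v r s h F t :=
  ⟨⟨hF.cont, hF.inv, hF.l2, hF.eig⟩, hF.hec⟩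

theorem real_fin (C Q I Y : ℝ) : C * Q * I * Y = C * I * (Q * Y) := by ring

theorem est {D : ℕ} (hD : ∀ D', Dim b D' → D' ≤ D) (hS : L8.FL.StatementDR (q0 b K) ((D : ℝ) / 2)) (p : ℕ) (F : Fin p → Type) [∀ k, RCLike (F k)] (V : ∀ k, PlS b K (F k)) (Λ : Fin p → b.support → ℝ)
    (hΛ : ∀ k, Λ k ∈ {Λ : b.support → ℝ | ∀ i : b.support, 0 ≤ vl b Λ i}) :
    Est K (hb b) (Mh b K) (Mr b K) (em0 b K) (fun i => (Sum.inl i, Sum.inr (P.reflectionPerm i i))) p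
      (fun k => Sph (matF (eb b) (fb b) (F k)) (eb b) (fb b) (hb b) (fun y => Sum.elim (fun _ => 0) (vl b y)) (V k).j) (fun k => Orb b (Λ k)) (Adm b p (fun k => Module.finrank ℝ (F k)) Λ) := by
  intro m1 hm1 m2 hm2 ε T hε Ω hΩ
  obtain rfl : m1 = borel _ := hm1.measurable_eq
  obtain rfl : m2 = borel _ := hm2.measurable_eq
  choose V' hV' using fun k => PV.pl_plH (toPV (V k))
  have hΛ' : ∀ (k : Fin p) i, 0 ≤ L8.al (fun i j => b.cartanMatrix i j) i (Λ k) := fun k i => by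
    have h : 0 ≤ PV.vl b (Λ k) i := hΛ k i
    rw [← PV.pry_inr, L8.ig19b_al] at h
    exact h
  have hΩ' : IsCompact ((fun x : L1S.HRt (L1S.HQ (q0 b K)) => x.1.1) '' Ω) := hΩ.image (continuous_subtype_val.comp continuous_subtype_val)
  obtain ⟨C, hC⟩ := hS p F V' Λ hΛ' ε hε T _ Ω hΩ' hΩ
  refine ⟨C, ?_⟩
  rintro v 𝔫 h𝔫 hv r s π hπ h w hh hat θ hθ t x d ht ⟨u, hu, ω, hω, hx⟩ R X hR ⟨c, a, D', hc, hrs, rfl, rfl, hD', ha, hsz, rfl⟩ μ hμ φ cφ sφ ν hν D₁ D₀ hD₁ hD₀ m f c' t' z y hf hort hsp hzT hy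
  have hn : (1 : ℝ) ≤ (Ideal.absNorm 𝔫 : ℝ) := by
    have h1 : 0 < Ideal.absNorm 𝔫 := Nat.pos_of_ne_zero fun e => h𝔫 (Ideal.absNorm_eq_zero_iff.1 e)
    exact_mod_cast h1
  have huu : ∀ β, a β * (t⁻¹).1.1.1 (Sum.inr β) (Sum.inr β) = 1 := by
    intro β
    have h1 : t.1.1.1 * (t⁻¹).1.1.1 = 1 := t.1.1.mul_inv
    have h2 := congrFun (congrFun h1 (Sum.inr β)) (Sum.inr β)
    have h3 : t.1.1.1 = Matrix.diagonal (Sum.elim (fun _ => 1) a) := ht
    rw [h3, Matrix.diagonal_mul, Matrix.one_apply_eq] at h2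
    exact h2
  let a' : ι → (mixedEmbedding.mixedSpace K)ˣ := fun β => Units.mkOfMulEqOne _ _ (huu β)
  have hθ' := gen_of hθ
  rw [gam_eq] at hD₁ hD₀ hf
  choose g hg using fun k l => orb_of (hy k l)
  have k1 := hC v 𝔫 h𝔫 hv r s c (fun _ _ => rfl) hc (by
    rcases hrs with h1 | h1
    · exact Or.inl h1
    · exact Or.inr h1) π hπ h (hgl_of hh) (at_of hat) θ hθ' t a' ht x ⟨⟨u, hu⟩, ω.1.1, ⟨ω, hω, rfl⟩, by rw [hx]; rfl⟩ R hR ha (by
    have hDD : (D' : ℝ) / 2 ≤ (D : ℝ) / 2 := by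
      have h1 : (D' : ℝ) ≤ (D : ℝ) := by exact_mod_cast hD _ hD'
      linarith
    refine le_trans (le_of_eq ?_) (hsz.trans (Real.rpow_le_rpow_of_exponent_le hn hDD))
    congr 3
    exact Finset.sum_congr rfl fun k _ => by ring)
  have key := @k1 μ hμ φ cφ sφ ν hν D₁ hD₁ m f c' t' (fun l => (aut_of (hf l)).1) (fun l => (aut_of (hf l)).2) hort z hzT (fun k l => PV.sph_of (V' k) (by
    rw [hV' k]
    exact hsp k l)) D₀ hD₀ g
  refine le_trans (le_of_eq (Finset.sum_congr rfl fun l _ => ?_)) (key.trans (le_of_eq ?_))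
  · have e : (fun k => R k * (∑ j, (z k l j).re * y k l j - ε)) = fun k => R k * (∑ j, (z k l j).re * L8.wl (fun i j => b.cartanMatrix i j) (g k l) (Λ k) j - ε) := by
      funext k
      rw [hg k l]
    rw [e]
    rfl
  · rw [Module.finrank_self, Nat.cast_one, inv_one, Real.rpow_one, Finset.prod_div_distrib, Finset.prod_const]
    have e1 : ∏ β ∈ L1S.Pos b, mixedEmbedding.norm (a' β : mixedEmbedding.mixedSpace K) = ∏ β with 0 < b.height β, mixedEmbedding.norm (a β) := rfl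
    have e2 : (L1S.Pos b).card = (Finset.univ.filter fun β => 0 < b.height β).card := rfl
    have e3 : ∑ β ∈ L1S.Pos b, L1S.pr b c (Sum.inr β) = ∑ β with 0 < b.height β, pr b c β := rfl
    rw [e1, e2, e3]
    exact real_fin _ _ _ _

/-- The domain and the data of the statement. -/
theorem dens {D : ℕ} (hD : ∀ D', Dim b D' → D' ≤ D) (hS : L8.FL.StatementDR (q0 b K) ((D : ℝ) / 2)) : DensCl K (hb b) (mixedEmbedding K) (GS b K) (H0 b K) (fun w => mixedEmbedding.normAtPlace w) (eb b) (fb b)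
    (fun y => Sum.elim (fun _ => 0) (vl b y)) (fun i => (Sum.inl i, Sum.inr (P.reflectionPerm i i))) {Λ | ∀ i : b.support, 0 ≤ vl b Λ i} (Orb b) (Adm b) :=
  ⟨places, fun p F _ V Λ hΛ => est hD hS p F V Λ hΛ⟩

theorem h0_top : H0 b K = ⊤ := L8.FL.m2_HQ (Module.finrank_self K) (q0 b K)

/-- Without a number `D` there is nothing to prove. -/
theorem dens_no (h : ¬∃ D, Dim b D) : DensCl K (hb b) (mixedEmbedding K) (GS b K) (H0 b K) (fun w => mixedEmbedding.normAtPlace w) (eb b) (fb b)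
    (fun y => Sum.elim (fun _ => 0) (vl b y)) (fun i => (Sum.inl i, Sum.inr (P.reflectionPerm i i))) {Λ | ∀ i : b.support, 0 ≤ vl b Λ i} (Orb b) (Adm b) := by
  refine ⟨places, fun p F _ V Λ hΛ => ?_⟩
  intro m1 hm1 m2 hm2 ε T hε Ω hΩ
  refine ⟨0, ?_⟩
  rintro v 𝔫 h𝔫 hv r s π hπ h' w hh hat θ hθ t x d ht hx R X hR ⟨c, a, D', hc, hrs, hw, hd, hD', _⟩
  exact absurd ⟨D', hD'⟩ h

/-- **The density theorem**, from the statement of FL/R5. -/
theorem beyond_of (h : ∀ D, Dim b D → L8.FL.StatementDR (q0 b K) ((D : ℝ) / 2)) : BeyondDensity b K := by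
  have h3 : DensCl K (hb b) (mixedEmbedding K) (GS b K) (H0 b K) (fun w => mixedEmbedding.normAtPlace w) (eb b) (fb b)
      (fun y => Sum.elim (fun _ => 0) (vl b y)) (fun i => (Sum.inl i, Sum.inr (P.reflectionPerm i i))) {Λ | ∀ i : b.support, 0 ≤ vl b Λ i} (Orb b) (Adm b) := by
    by_cases he : ∃ D, Dim b D
    · obtain ⟨D, h1, h2⟩ := ex_dim he
      exact dens h2 (h D h1)
    · exact dens_no he
  rw [h0_top] at h3
  exact h3

end main

end

end Pool.Agent.Lib.L8.PX
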